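import Mathlib
import Pool.Agent.Lib.helper23.HeatB

set_option autoImplicit false

namespace Pool.Agent.Results.MP_6efe58_an.Main

/-- normalized two-cocycles with values in the unit circle -/
def Coc {G : Type} [Group G] (σ : G → G → ℂ) : Prop :=
  (∀ g h, ‖σ g h‖ = 1) ∧ (∀ g h k, σ g h * σ (g * h) k = σ h k * σ g (h * k)) ∧
    ∀ g, σ 1 g = 1 ∧ σ g 1 = 1

/-- nonnegative negative definite functions vanishing at the identity -/
def ND {G : Type} [Group G] (d : G → ℝ) : Prop :=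
  d 1 = 0 ∧ (∀ g, 0 ≤ d g) ∧ (∀ g, d g⁻¹ = d g) ∧ ∀ (n : ℕ) (g : Fin n → G) (c : Fin n → ℂ),
    ∑ i, c i = 0 → (∑ i, ∑ j, star (c i) * c j * d ((g i)⁻¹ * g j)).re ≤ 0

section

variable {G H : Type} [Group G] [NormedAddCommGroup H] [InnerProductSpace ℂ H]

/-- the twisted left regular representation -/
def Reg (b : HilbertBasis G ℂ H) (σ : G → G → ℂ) (u : G → H →L[ℂ] H) : Prop :=
  ∀ g h, u g (b h) = σ g h • b (g * h)

/-- Fourier coefficients -/
noncomputable def hat (b : HilbertBasis G ℂ H) (x : H →L[ℂ] H) (g : G) : ℂ :=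
  inner ℂ (b g) (x (b 1))

end

/-- the norm closure of the span of a family -/
def Cr {G B : Type} [NormedAddCommGroup B] [NormedSpace ℂ B] (u : G → B) : Set B :=
  closure (Submodule.span ℂ (Set.range u) : Set B)

/-- unordered norm convergence of the series with coefficients `a` -/
def Conv {G B : Type} [NormedAddCommGroup B] [NormedSpace ℂ B] (u : G → B) (a : G → ℂ) : Prop :=
  Summable fun g => a g • u g

/-- some element of the closed span has a divergent Fourier series that converges after damping -/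
def Weak {G B : Type} [NormedAddCommGroup B] [NormedSpace ℂ B] (u : G → B) (c : B → G → ℂ)
    (d : G → ℝ) (t : ℝ) : Prop :=
  ∃ x ∈ Cr u, ¬ Conv u (c x) ∧ Conv u fun g => Real.exp (-(t * d g)) * c x g

theorem result {G H : Type} [Group G] [Infinite G] [NormedAddCommGroup H] [InnerProductSpace ℂ H]
    [CompleteSpace H] (b : HilbertBasis G ℂ H) (σ : G → G → ℂ) (u : G → H →L[ℂ] H) (hσ : Coc σ)
    (hu : Reg b σ u) (d : G → ℝ) (hd : ND d) (hT : ¬ BddAbove (Set.range d)) (t : ℝ) (ht : 0 < t) :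
    Weak u (hat b) d t := by
  refine Pool.Agent.Lib.helper23.HeatB.weak
    ⟨hσ.1, hσ.2.1, fun g => (hσ.2.2 g).1, fun g => (hσ.2.2 g).2, hu⟩ (d := fun g => t * d g)
    (fun g h => ?_) (fun ⟨M, hM⟩ => hT ⟨M / t, ?_⟩) fun g => mul_nonneg ht.le (hd.2.1 g)
  · have := hd.2.2.2 3 ![1, g, g * h] ![-2, 1, 1] (by simp [Fin.sum_univ_three]; norm_num)
    have e : d ((g * h)⁻¹ * g) = d h := by rw [← hd.2.2.1]; simp
    simp [Fin.sum_univ_three, hd.1, hd.2.2.1, e, -mul_inv_rev] at this
    nlinarith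
  · rintro _ ⟨g, rfl⟩
    rw [le_div_iff₀' ht]
    exact hM ⟨g, rfl⟩

end Pool.Agent.Results.MP_6efe58_an.Main
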